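import Pool.Graph.R_pool_sql_team_seeded_9f66d723.W6h79.LD.Defs8

/-!
# Iterated `ℓ¹`-sums, fully dependent version (after library W4)
-/

set_option autoImplicit false
set_option linter.unusedSectionVars false

open MeasureTheory Set Filter
open scoped ENNReal NNReal Topology

noncomputable section

namespace Pool.Agent.H553.LD.Iter

universe u v w

theorem mem_iff {K : Type u} {E : K → Type v} [∀ k, NormedAddCommGroup (E k)]
    (f : ∀ k, E k) : Memℓp f 1 ↔ Summable fun k => ‖f k‖ := by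
  rw [memℓp_gen_iff (by norm_num)]
  simp

theorem norm_eq {K : Type u} {E : K → Type v} [∀ k, NormedAddCommGroup (E k)]
    (f : lp E 1) : ‖f‖ = ∑' k, ‖f k‖ := by
  rw [lp.norm_eq_tsum_rpow (by norm_num)]
  simp

variable {P : Type u} {B : P → Type v} {Y : (p : P) → B p → Type w}
  [∀ p b, NormedAddCommGroup (Y p b)] [∀ p b, NormedSpace ℝ (Y p b)]

theorem fwd_mem (f : lp (fun p : P => lp (fun b : B p => Y p b) 1) 1) :
    Memℓp (fun q : (Σ p : P, B p) => (f q.1 : ∀ b : B q.1, Y q.1 b) q.2) 1 := by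
  rw [mem_iff]
  refine (summable_sigma_of_nonneg
    (f := fun q : (Σ p : P, B p) => ‖(f q.1 : ∀ b : B q.1, Y q.1 b) q.2‖)
    (fun _ => norm_nonneg _)).2 ⟨fun k => (mem_iff _).1 (f k).2, ?_⟩
  have := (mem_iff _).1 f.2
  refine this.congr fun k => ?_
  exact norm_eq (f k)

theorem bwd_mem1 (g : lp (fun q : (Σ p : P, B p) => Y q.1 q.2) 1) (k : P) :
    Memℓp (fun i : B k => (g : ∀ q : (Σ p : P, B p), Y q.1 q.2) ⟨k, i⟩) 1 := by
  rw [mem_iff]
  have := (summable_sigma_of_nonneg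
    (f := fun q : (Σ p : P, B p) => ‖(g : ∀ q : (Σ p : P, B p), Y q.1 q.2) q‖)
    (fun _ => norm_nonneg _)).1 ((mem_iff _).1 g.2)
  exact this.1 k

theorem bwd_mem2 (g : lp (fun q : (Σ p : P, B p) => Y q.1 q.2) 1) :
    Memℓp (fun k : P => (⟨fun i : B k => (g : ∀ q : (Σ p : P, B p), Y q.1 q.2) ⟨k, i⟩,
      bwd_mem1 g k⟩ : lp (fun b : B k => Y k b) 1)) 1 := by
  rw [mem_iff]
  have := (summable_sigma_of_nonneg
    (f := fun q : (Σ p : P, B p) => ‖(g : ∀ q : (Σ p : P, B p), Y q.1 q.2) q‖)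
    (fun _ => norm_nonneg _)).1 ((mem_iff _).1 g.2)
  refine this.2.congr fun k => ?_
  exact (norm_eq (⟨fun i : B k => (g : ∀ q : (Σ p : P, B p), Y q.1 q.2) ⟨k, i⟩, bwd_mem1 g k⟩ :
      lp (fun b : B k => Y k b) 1)).symm

/-- The linear equivalence. -/
def lin : lp (fun p : P => lp (fun b : B p => Y p b) 1) 1 ≃ₗ[ℝ]
    lp (fun q : (Σ p : P, B p) => Y q.1 q.2) 1 where
  toFun f := ⟨fun q => (f q.1 : ∀ b : B q.1, Y q.1 b) q.2, fwd_mem f⟩
  invFun g := ⟨fun k => ⟨fun i : B k => (g : ∀ q : (Σ p : P, B p), Y q.1 q.2) ⟨k, i⟩,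
    bwd_mem1 g k⟩, bwd_mem2 g⟩
  left_inv f := by
    ext k i
    rfl
  right_inv g := by
    ext p
    rfl
  map_add' f g := by
    ext p
    rfl
  map_smul' c f := by
    ext p
    rfl

/-- The isometry. -/
def iso : lp (fun p : P => lp (fun b : B p => Y p b) 1) 1 ≃ₗᵢ[ℝ]
    lp (fun q : (Σ p : P, B p) => Y q.1 q.2) 1 where
  toLinearEquiv := lin
  norm_map' f := by
    rw [norm_eq, norm_eq]
    have h1 : Summable fun q : (Σ p : P, B p) => ‖(f q.1 : ∀ b : B q.1, Y q.1 b) q.2‖ :=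
      (mem_iff _).1 (fwd_mem f)
    have h0 : ∀ k, Summable fun y : B k => ‖(f k : ∀ b : B k, Y k b) y‖ :=
      fun k => (mem_iff _).1 (f k).2
    have h2 := h1.tsum_sigma' h0
    calc ∑' q : (Σ p : P, B p), ‖(f q.1 : ∀ b : B q.1, Y q.1 b) q.2‖ = _ := h2
      _ = ∑' k, ‖f k‖ := by
        refine tsum_congr fun k => ?_
        exact (norm_eq (f k)).symm

end Pool.Agent.H553.LD.Iter
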