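import Pool.Graph.R_pool_sql_team_seeded_9f66d723.W6h79.LD.All8
import Pool.Agent.H553.LD.Iter

/-!
# `ℓ¹` of countably many copies of `L¹` of the coins is complemented in `L¹` of the coins
-/

set_option autoImplicit false

open MeasureTheory Set Filter
open scoped ENNReal NNReal Topology
open Pool.Agent.W6h79.LD

noncomputable section

namespace Pool.Agent.H553.LD.Split

universe u

variable {A : Type u}

/-- the coins `e (inl 0), e (inl 1), ...` are `false` up to the number `n`, which is `true` -/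
def EE (e : ℕ ⊕ A ↪ A) (n : ℕ) : Set (A → Bool) :=
  {x | (∀ i < n, x (e (Sum.inl i)) = false) ∧ x (e (Sum.inl n)) = true}

theorem EE_meas (e : ℕ ⊕ A ↪ A) (n : ℕ) : MeasurableSet (EE e n) := by
  have hm : ∀ (a : A) (b : Bool), MeasurableSet {x : A → Bool | x a = b} := fun a b => by
    have h1 : Measurable fun x : A → Bool => x a := measurable_pi_apply a
    exact h1 (measurableSet_singleton b)
  have h : EE e n = (⋂ i : ℕ, ⋂ _ : i < n, {x : A → Bool | x (e (Sum.inl i)) = false}) ∩
      {x | x (e (Sum.inl n)) = true} := by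
    ext x
    simp [EE]
  rw [h]
  exact (MeasurableSet.iInter fun i => MeasurableSet.iInter fun _ => hm _ _).inter (hm _ _)

theorem cyl_meas (e : ℕ ⊕ A ↪ A) (n : ℕ) (s : Finset A) (t : A → Set Bool) :
    coins A (EE e n ∩ {x | ∀ a ∈ s, x (e (Sum.inr a)) ∈ t a}) =
      (2⁻¹ : ℝ≥0∞) ^ (n + 1) * ∏ a ∈ s, coin (t a) := by
  classical
  have hmp := W6x.mp e
  set T : ℕ ⊕ A → Set Bool := Sum.elim (fun i => if i = n then {true} else {false}) t with hT
  set s' : Finset (ℕ ⊕ A) := (Finset.range (n + 1)).disjSum s with hs'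
  have h1 : EE e n ∩ {x | ∀ a ∈ s, x (e (Sum.inr a)) ∈ t a} =
      (fun x : A → Bool => fun b : ℕ ⊕ A => x (e b)) ⁻¹' (Set.pi (↑s') T) := by
    ext x
    simp only [mem_inter_iff, mem_preimage, Set.mem_pi, EE, Set.mem_ofPred_eq]
    constructor
    · rintro ⟨⟨h2, h3⟩, h4⟩ b hb
      rw [hs', Finset.mem_coe, Finset.mem_disjSum] at hb
      rcases hb with ⟨i, hi, rfl⟩ | ⟨a, ha, rfl⟩
      · simp only [hT, Sum.elim_inl]
        by_cases hin : i = n
        · subst hin
          rw [if_pos rfl]
          exact h3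
        · rw [if_neg hin]
          rw [Finset.mem_range] at hi
          exact h2 i (by omega)
      · exact h4 a ha
    · intro h
      refine ⟨⟨fun i hi => ?_, ?_⟩, fun a ha => ?_⟩
      · have := h (Sum.inl i) (by
          rw [hs', Finset.mem_coe, Finset.mem_disjSum]
          exact Or.inl ⟨i, Finset.mem_range.2 (by omega), rfl⟩)
        simp only [hT, Sum.elim_inl] at this
        rwa [if_neg (by omega)] at this
      · have := h (Sum.inl n) (by
          rw [hs', Finset.mem_coe, Finset.mem_disjSum]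
          exact Or.inl ⟨n, Finset.mem_range.2 (by omega), rfl⟩)
        simp only [hT, Sum.elim_inl] at this
        simpa using this
      · exact h (Sum.inr a) (by
          rw [hs', Finset.mem_coe, Finset.mem_disjSum]
          exact Or.inr ⟨a, ha, rfl⟩)
  have hm : MeasurableSet (Set.pi (↑s') T) :=
    MeasurableSet.pi s'.countable_toSet fun i _ => MeasurableSet.of_discrete
  rw [h1, hmp.measure_preimage hm.nullMeasurableSet, coins,
    Measure.infinitePi_pi _ (fun i _ => MeasurableSet.of_discrete), hs', Finset.prod_disjSum]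
  congr 1
  have h2 : ∀ i ∈ Finset.range (n + 1), coin (T (Sum.inl i)) = 2⁻¹ := by
    intro i _
    simp only [hT, Sum.elim_inl]
    split_ifs
    · exact W8.coin_one _
    · exact W8.coin_one _
  rw [Finset.prod_congr rfl h2, Finset.prod_const, Finset.card_range]

theorem EE_measure (e : ℕ ⊕ A ↪ A) (n : ℕ) : coins A (EE e n) = (2⁻¹ : ℝ≥0∞) ^ (n + 1) := by
  have := cyl_meas e n ∅ (fun _ => Set.univ)
  simpa using this

theorem EE_disj (e : ℕ ⊕ A ↪ A) (n m : ℕ) (h : n ≠ m) : EE e n ∩ EE e m = ∅ := by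
  ext x
  simp only [mem_inter_iff, EE, Set.mem_ofPred_eq, mem_empty_iff_false, iff_false]
  rintro ⟨⟨h1, h2⟩, ⟨h3, h4⟩⟩
  rcases lt_or_gt_of_ne h with hlt | hgt
  · rw [h3 n hlt] at h2
    exact Bool.false_ne_true h2
  · rw [h1 m hgt] at h4
    exact Bool.false_ne_true h4

theorem two_ne : (2 : ℝ≥0∞) ≠ ∞ := ENNReal.ofNat_ne_top

theorem mpE (e : ℕ ⊕ A ↪ A) (n : ℕ) :
    MeasurePreserving (fun x : A → Bool => fun a : A => x (e (Sum.inr a)))
      (((2 : ℝ≥0∞) ^ (n + 1)) • (coins A).restrict (EE e n)) (coins A) := by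
  have hm : Measurable (fun x : A → Bool => fun a : A => x (e (Sum.inr a))) :=
    measurable_pi_lambda _ fun a => measurable_pi_apply (e (Sum.inr a))
  refine ⟨hm, ?_⟩
  conv_rhs => unfold coins
  apply Measure.eq_infinitePi
  intro s t ht
  have hmt : MeasurableSet (Set.pi (↑s) t) :=
    MeasurableSet.pi s.countable_toSet fun i _ => ht i
  rw [Measure.map_apply hm hmt, Measure.smul_apply, Measure.restrict_apply (hm hmt)]
  have h1 : (fun x : A → Bool => fun a : A => x (e (Sum.inr a))) ⁻¹' (Set.pi (↑s) t) ∩ EE e n =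
      EE e n ∩ {x | ∀ a ∈ s, x (e (Sum.inr a)) ∈ t a} := by
    rw [inter_comm]
    rfl
  rw [h1, cyl_meas, smul_eq_mul, ← mul_assoc, ← mul_pow, ENNReal.mul_inv_cancel (by norm_num)
    two_ne, one_pow, one_mul]

/-- the family of the sets `EE e n` -/
theorem maxDec [Infinite A] (e : ℕ ⊕ A ↪ A) : MaxDec (coins A) (Set.range (EE e)) := by
  refine ⟨?_, ?_, ?_⟩
  · rintro E ⟨n, rfl⟩
    refine ⟨EE_meas e n, ?_, measure_lt_top _ _, Or.inr fun B _ => W8.coins_atomless A B⟩
    rw [EE_measure]
    exact ENNReal.pow_pos (by simp) _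
  · rintro E ⟨n, rfl⟩ E' ⟨m, rfl⟩ hne
    rw [EE_disj e n m (fun h => hne (by rw [h]))]
    exact measure_empty
  · intro F hF hF0 _
    by_contra hcon
    push Not at hcon
    have h1 : ∀ n, coins A (F ∩ EE e n) = 0 := fun n =>
      le_antisymm (hcon (EE e n) ⟨n, rfl⟩) zero_le
    -- the complement of the union is a null set
    have h2 : coins A {x | ∀ i, x (e (Sum.inl i)) = false} = 0 := by
      have hmp := W6x.mp (⟨fun i : ULift.{u} ℕ => e (Sum.inl i.down), fun i j h => by
        have := e.injective h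
        rw [Sum.inl.injEq] at this
        exact ULift.ext _ _ this⟩ : ULift.{u} ℕ ↪ A)
      have hle : ∀ n : ℕ, coins A {x | ∀ i, x (e (Sum.inl i)) = false} ≤ (2⁻¹ : ℝ≥0∞) ^ n := by
        intro n
        set s : Finset (ULift.{u} ℕ) := (Finset.range n).map ⟨ULift.up, ULift.up_injective⟩
          with hs
        have hsub : {x : A → Bool | ∀ i, x (e (Sum.inl i)) = false} ⊆
            (fun x : A → Bool => fun b : ULift.{u} ℕ => x (e (Sum.inl b.down))) ⁻¹'
              (Set.pi (↑s) (fun _ => {false})) := by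
          intro x hx b _
          exact hx b.down
        have hm : MeasurableSet (Set.pi (↑s : Set (ULift.{u} ℕ)) (fun _ => ({false} : Set Bool))) :=
          MeasurableSet.pi s.countable_toSet fun i _ => MeasurableSet.of_discrete
        refine (measure_mono hsub).trans (le_of_eq ?_)
        have h3 := hmp.measure_preimage hm.nullMeasurableSet
        refine Eq.trans h3 ?_
        rw [coins, Measure.infinitePi_pi _ (fun i _ => MeasurableSet.of_discrete)]
        simp_rw [W8.coin_one]
        rw [Finset.prod_const, hs, Finset.card_map, Finset.card_range]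
      have h3 : Tendsto (fun n : ℕ => (2⁻¹ : ℝ≥0∞) ^ n) atTop (𝓝 0) :=
        ENNReal.tendsto_pow_atTop_nhds_zero_of_lt_one (by
          rw [ENNReal.inv_lt_one]; exact ENNReal.one_lt_two)
      exact le_antisymm (ge_of_tendsto' h3 hle) zero_le
    have h3 : F ⊆ (⋃ n, (F ∩ EE e n)) ∪ {x | ∀ i, x (e (Sum.inl i)) = false} := by
      intro x hx
      by_cases h : ∀ i, x (e (Sum.inl i)) = false
      · exact Or.inr h
      · left
        push Not at h
        classical
        have hex : ∃ i, x (e (Sum.inl i)) = true := by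
          obtain ⟨i, hi⟩ := h
          exact ⟨i, by simpa using hi⟩
        refine mem_iUnion.2 ⟨Nat.find hex, hx, fun i hi => ?_, Nat.find_spec hex⟩
        have := Nat.find_min hex hi
        simpa using this
    have h4 : coins A F = 0 := by
      refine measure_mono_null h3 (measure_union_null ?_ h2)
      exact measure_iUnion_null h1
    exact hF0.ne' h4

theorem ceN (A : Type u) [Infinite A] : CE (lp (fun _ : ℕ => XC A) 1) (XC A) := by
  obtain ⟨e⟩ : Nonempty (ℕ ⊕ A ↪ A) := by
    rw [← Cardinal.le_def]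
    have h := Cardinal.aleph0_le_mk A
    simp only [Cardinal.mk_sum, Cardinal.mk_nat, Cardinal.lift_aleph0, Cardinal.lift_uzero]
    rw [Cardinal.add_eq_right h h]
  obtain ⟨f⟩ := sR2 (A → Bool) (coins A) (Set.range (EE e)) (maxDec e)
  have h1 : ∀ n : ℕ, CE (XC A) (Lp ℝ 1 ((coins A).restrict (EE e n))) := by
    intro n
    have h2 : CE (XC A) (Lp ℝ 1 (((2 : ℝ≥0∞) ^ (n + 1)) • (coins A).restrict (EE e n))) :=
      sT3 _ _ _ _ _ (by
        refine ⟨?_⟩
        rw [Measure.smul_apply, smul_eq_mul]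
        exact ENNReal.mul_lt_top (ENNReal.pow_lt_top two_ne.lt_top) (measure_lt_top _ _))
        (mpE e n)
    obtain ⟨g⟩ := sP5 (A → Bool) ((coins A).restrict (EE e n)) ((2 : ℝ≥0∞) ^ (n + 1))
      (by simp) (ENNReal.pow_ne_top two_ne)
    exact W10P.ce_trans h2 (W10P.ce_iso g.symm)
  have hinj : Function.Injective (fun n : ℕ => (⟨EE e n, n, rfl⟩ : Set.range (EE e))) := by
    intro n m h
    have h2 : EE e n = EE e m := congrArg Subtype.val h
    by_contra hne
    have h3 := EE_disj e n m hne
    rw [h2, inter_self] at h3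
    have h4 := EE_measure e m
    rw [h3, measure_empty] at h4
    exact (ENNReal.pow_pos (show (0 : ℝ≥0∞) < 2⁻¹ by simp) (m + 1)).ne h4
  exact W10P.ce_trans (sW3.{0, u, u, u} ℕ (Set.range (EE e)) (fun _ => XC A)
    (fun E => Lp ℝ 1 ((coins A).restrict (E : Set (A → Bool))))
    (fun n => ⟨EE e n, n, rfl⟩) hinj h1) (W10P.ce_iso f.symm)

end Pool.Agent.H553.LD.Split
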