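import Pool.Agent.H624.LD.Stm
import Pool.Agent.H553.LD.Split

/-!
# (WCH) the abstract comparison under the continuum hypothesis
-/

set_option autoImplicit false

open MeasureTheory Set Filter
open scoped ENNReal NNReal Topology
open Pool.Agent.W6h79.LD Pool.Agent.H624.LD

noncomputable section

namespace Pool.Agent.H553.LD.WCH

universe u

open W10P Split

/-- two Banach spaces, each repeated -/
def VY (K₁ K₂ : Type u) (Y C : Type u) : K₁ ⊕ K₂ → Type u
  | .inl _ => Y
  | .inr _ => C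

instance instN (K₁ K₂ : Type u) (Y C : Type u) [NormedAddCommGroup Y] [NormedAddCommGroup C] :
    ∀ k, NormedAddCommGroup (VY K₁ K₂ Y C k)
  | .inl _ => inferInstanceAs (NormedAddCommGroup Y)
  | .inr _ => inferInstanceAs (NormedAddCommGroup C)

instance instS (K₁ K₂ : Type u) (Y C : Type u) [NormedAddCommGroup Y] [NormedAddCommGroup C]
    [NormedSpace ℝ Y] [NormedSpace ℝ C] : ∀ k, NormedSpace ℝ (VY K₁ K₂ Y C k)
  | .inl _ => inferInstanceAs (NormedSpace ℝ Y)
  | .inr _ => inferInstanceAs (NormedSpace ℝ C)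

instance instC (K₁ K₂ : Type u) (Y C : Type u) [NormedAddCommGroup Y] [NormedAddCommGroup C]
    [CompleteSpace Y] [CompleteSpace C] : ∀ k, CompleteSpace (VY K₁ K₂ Y C k)
  | .inl _ => inferInstanceAs (CompleteSpace Y)
  | .inr _ => inferInstanceAs (CompleteSpace C)

/-- the types of the pieces -/
def tau (K₁ K₂ : Type u) : K₁ ⊕ K₂ → Cardinal.{u} :=
  Sum.elim (fun _ => Cardinal.aleph 1) (fun _ => Cardinal.aleph0)

theorem tau_ge (K₁ K₂ : Type u) (s : K₁ ⊕ K₂) : Cardinal.aleph0 ≤ tau K₁ K₂ s := by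
  rcases s with s | s
  · exact Cardinal.aleph0_le_aleph 1
  · exact le_rfl

theorem tau_le (K₁ K₂ : Type u) (s : K₁ ⊕ K₂) : tau K₁ K₂ s ≤ Cardinal.aleph 1 := by
  rcases s with s | s
  · exact le_rfl
  · exact Cardinal.aleph0_le_aleph 1

theorem tau_inf (K₁ K₂ : Type u) (s : K₁ ⊕ K₂) : Infinite (tau K₁ K₂ s).out := by
  rw [Cardinal.infinite_iff, Cardinal.mk_out]
  exact tau_ge K₁ K₂ s

/-- `ℓ¹(W)` in `W` -/
theorem l1W (S : Type u) (τ : S → Cardinal.{u}) (hτ : ∀ s, Infinite (τ s).out) :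
    CE (lp (fun _ : ℕ => lp (fun s : S => XC (τ s).out) 1) 1) (lp (fun s : S => XC (τ s).out) 1) := by
  have e1 : CE (lp (fun _ : ℕ => lp (fun s : S => XC (τ s).out) 1) 1)
      (lp (fun q : (Σ _ : ℕ, S) => XC (τ q.2).out) 1) :=
    ce_iso (Iter.iso (P := ℕ) (B := fun _ => S) (Y := fun _ s => XC (τ s).out))
  have e2 : CE (lp (fun q : (Σ _ : ℕ, S) => XC (τ q.2).out) 1)
      (lp (fun q : (Σ _ : S, ℕ) => XC (τ q.1).out) 1) := by
    refine sW3.{u, u, u, u} (Σ _ : ℕ, S) (Σ _ : S, ℕ) (fun q => XC (τ q.2).out)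
      (fun q => XC (τ q.1).out) (fun q => ⟨q.2, q.1⟩) ?_ (fun q => ce_refl)
    rintro ⟨n, s⟩ ⟨n', s'⟩ h
    simp only [Sigma.mk.injEq] at h
    obtain ⟨h1, h2⟩ := h
    subst h1
    rw [eq_of_heq h2]
  have e3 : CE (lp (fun q : (Σ _ : S, ℕ) => XC (τ q.1).out) 1)
      (lp (fun s : S => lp (fun _ : ℕ => XC (τ s).out) 1) 1) :=
    ce_iso (Iter.iso (P := S) (B := fun _ => ℕ) (Y := fun s _ => XC (τ s).out)).symm
  have e4 : CE (lp (fun s : S => lp (fun _ : ℕ => XC (τ s).out) 1) 1)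
      (lp (fun s : S => XC (τ s).out) 1) :=
    sW3.{u, u, u, u} S S (fun s => lp (fun _ : ℕ => XC (τ s).out) 1) (fun s => XC (τ s).out) id
      Function.injective_id (fun s => by
        have := hτ s
        exact ceN (τ s).out)
  exact ce_trans e1 (ce_trans e2 (ce_trans e3 e4))

/-- fewer coins -/
theorem ceXC (a b : Cardinal.{u}) (h : a ≤ b) : CE (XC a.out) (XC b.out) :=
  hW6 _ _ (by rw [Cardinal.mk_out, Cardinal.mk_out]; exact h)

theorem mk_fun_bool (A : Type u) : Cardinal.mk (A → Bool) = 2 ^ Cardinal.mk A := by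
  simp

theorem sWCH (hK : S_K12.{u}) : S_WCH.{u} := by
  classical
  intro hCH P t X _ _ _ ht hX hP
  obtain ⟨Y, iY1, iY2, iY3, hY1, hY2⟩ := hK hCH
  have hc : Cardinal.mk (Cardinal.aleph0.{u}.out → Bool) = Cardinal.continuum := by
    rw [mk_fun_bool, Cardinal.mk_out, Cardinal.two_power_aleph0]
  have hPinf : Cardinal.aleph0 ≤ Cardinal.mk P := Cardinal.aleph0_le_continuum.trans hP
  have : Infinite P := Cardinal.infinite_iff.2 hPinf
  have hinfN : Infinite (Cardinal.aleph0.{u}.out) := by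
    rw [Cardinal.infinite_iff, Cardinal.mk_out]
  -- the index sets
  obtain ⟨Q, hQd⟩ : ∃ Q : Type u, Q = (Cardinal.aleph0.{u}.out → Bool) := ⟨_, rfl⟩
  have hQc : Cardinal.mk Q = Cardinal.continuum := by rw [hQd]; exact hc
  obtain ⟨P₁, hP₁d⟩ : ∃ P₁ : Set P, P₁ = {p | t p = Cardinal.aleph 1} := ⟨_, rfl⟩
  have hmem : ∀ p, p ∈ P₁ → t p = Cardinal.aleph 1 := by
    intro p hp
    rw [hP₁d] at hp
    exact hp
  have hPQ : Cardinal.mk (P × Q) = Cardinal.mk P := by
    rw [Cardinal.mk_prod, Cardinal.lift_id, Cardinal.lift_id, hQc]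
    exact Cardinal.mul_eq_left hPinf hP (Cardinal.continuum_ne_zero)
  have hP₁le : Cardinal.mk P₁ ≤ Cardinal.mk P := Cardinal.mk_set_le _
  set τ : P₁ ⊕ (P × Q) → Cardinal.{u} := tau P₁ (P × Q) with hτ
  have hτinf := tau_inf P₁ (P × Q)
  -- comparison of `X` and `W`
  have c1 : CE (lp X 1) (lp (fun s : P₁ ⊕ (P × Q) => XC (τ s).out) 1) := by
    have hQne : Nonempty Q := by
      rw [hQd]
      exact ⟨fun _ => false⟩
    obtain ⟨q₀⟩ := hQne
    refine sW3.{u, u, u, u} P (P₁ ⊕ (P × Q)) X (fun s => XC (τ s).out)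
      (fun p => if h : p ∈ P₁ then Sum.inl ⟨p, h⟩ else Sum.inr (p, q₀)) ?_ ?_
    · intro p p' h
      by_cases h1 : p ∈ P₁
      · by_cases h2 : p' ∈ P₁
        · simp only [dif_pos h1, dif_pos h2, Sum.inl.injEq, Subtype.mk.injEq] at h
          exact h
        · simp [dif_pos h1, dif_neg h2] at h
      · by_cases h2 : p' ∈ P₁
        · simp [dif_neg h1, dif_pos h2] at h
        · simp only [dif_neg h1, dif_neg h2, Sum.inr.injEq, Prod.mk.injEq] at h
          exact h.1
    · intro p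
      refine ce_trans (hX p).2 (ceXC _ _ ?_)
      by_cases h1 : p ∈ P₁
      · rw [dif_pos h1]
        have h2 : t p = Cardinal.aleph 1 := by
          rw [hP₁d] at h1
          exact h1
        rw [h2]
        exact le_rfl
      · rw [dif_neg h1]
        have h2 : t p = Cardinal.aleph0 := by
          rw [hP₁d] at h1
          exact (ht p).resolve_right h1
        rw [h2]
        exact le_rfl
  have c2 : CE (lp (fun s : P₁ ⊕ (P × Q) => XC (τ s).out) 1) (lp X 1) := by
    obtain ⟨g, hg, hgt⟩ : ∃ g : P₁ ⊕ (P × Q) → P, Function.Injective g ∧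
        ∀ s, τ s ≤ t (g s) := by
      rcases lt_or_eq_of_le hP₁le with hlt | heq
      · have h1 : Cardinal.mk (P₁ᶜ : Set P) = Cardinal.mk P :=
          Cardinal.mk_compl_of_infinite P₁ hlt
        obtain ⟨j⟩ : Nonempty (P × Q ↪ (P₁ᶜ : Set P)) := by
          rw [← Cardinal.le_def, h1, hPQ]
        refine ⟨Sum.elim (fun p => p.1) (fun q => (j q).1), ?_, ?_⟩
        · rintro (p | q) (p' | q') h
          · simp only [Sum.elim_inl] at h
            rw [Subtype.ext h]
          · simp only [Sum.elim_inl, Sum.elim_inr] at h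
            exact absurd (h ▸ p.2) (j q').2
          · simp only [Sum.elim_inl, Sum.elim_inr] at h
            exact absurd (h ▸ p'.2) (j q).2
          · simp only [Sum.elim_inr] at h
            rw [j.injective (Subtype.ext h)]
        · rintro (p | q)
          · have h2 : t p.1 = Cardinal.aleph 1 := hmem _ p.2
            simp only [Sum.elim_inl]
            rw [h2]
            exact le_rfl
          · simp only [Sum.elim_inr]
            rcases ht (j q).1 with h2 | h2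
            · rw [h2]; exact le_rfl
            · rw [h2]; exact tau_le _ _ _
      · obtain ⟨j⟩ : Nonempty (P₁ ⊕ (P × Q) ↪ P₁) := by
          rw [← Cardinal.le_def, Cardinal.mk_sum, Cardinal.lift_id, Cardinal.lift_id, hPQ, heq,
            Cardinal.add_eq_self hPinf]
        refine ⟨fun s => (j s).1, fun s s' h => j.injective (Subtype.ext h), fun s => ?_⟩
        have h2 : t (j s).1 = Cardinal.aleph 1 := hmem _ (j s).2
        rw [h2]
        exact tau_le _ _ _
    exact sW3.{u, u, u, u} (P₁ ⊕ (P × Q)) P (fun s => XC (τ s).out) X g hg fun s =>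
      ce_trans (ceXC _ _ (hgt s)) (hX (g s)).1
  -- the dual space
  set C : Type u := C(Cardinal.aleph0.{u}.out → Bool, ℝ) with hC
  have w21 : CE (StrongDual ℝ C) (lp (fun _ : Q => XC (Cardinal.aleph0.{u}).out) 1) := by
    subst hQd
    exact (hW2.{u} (Cardinal.aleph0.{u}.out) hinfN).1
  have w22 : CE (lp (fun _ : Q => XC (Cardinal.aleph0.{u}).out) 1) (StrongDual ℝ C) := by
    subst hQd
    exact (hW2.{u} (Cardinal.aleph0.{u}.out) hinfN).2
  have d2 : CE (lp (fun s : P₁ ⊕ (P × Q) => XC (τ s).out) 1)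
      (lp (fun k : P₁ ⊕ P => StrongDual ℝ (VY P₁ P Y C k)) 1) := by
    set B : P₁ ⊕ P → Type u := Sum.elim (fun _ => ULift.{u} ℕ) (fun _ => Q) with hB
    have e1 : CE (lp (fun s : P₁ ⊕ (P × Q) => XC (τ s).out) 1)
        (lp (fun q : (Σ k : P₁ ⊕ P, B k) => XC (tau P₁ P q.1).out) 1) := by
      refine sW3.{u, u, u, u} (P₁ ⊕ (P × Q)) (Σ k : P₁ ⊕ P, B k) (fun s => XC (τ s).out)
        (fun q => XC (tau P₁ P q.1).out)
        (fun s => match s with
          | .inl p => ⟨.inl p, (⟨0⟩ : ULift.{u} ℕ)⟩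
          | .inr (p, q) => ⟨.inr p, (q : Q)⟩) ?_ ?_
      · rintro (p | ⟨p, q⟩) (p' | ⟨p', q'⟩) h
        · simp only [Sigma.mk.injEq, Sum.inl.injEq] at h
          rw [h.1]
        · simp at h
        · simp at h
        · simp only [Sigma.mk.injEq, Sum.inr.injEq] at h
          obtain ⟨h1, h2⟩ := h
          subst h1
          rw [eq_of_heq h2]
      · rintro (p | ⟨p, q⟩)
        · exact ce_refl
        · exact ce_refl
    obtain ⟨e2⟩ := sW4.{u, u, u} (P₁ ⊕ P) B (fun k => XC (tau P₁ P k).out)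
    have e3 : CE (lp (fun k : P₁ ⊕ P => lp (fun _ : B k => XC (tau P₁ P k).out) 1) 1)
        (lp (fun k : P₁ ⊕ P => StrongDual ℝ (VY P₁ P Y C k)) 1) := by
      refine sW3.{u, u, u, u} (P₁ ⊕ P) (P₁ ⊕ P)
        (fun k => lp (fun _ : B k => XC (tau P₁ P k).out) 1)
        (fun k => StrongDual ℝ (VY P₁ P Y C k)) id Function.injective_id ?_
      rintro (p | p)
      · have : Infinite (Cardinal.aleph.{u} 1).out := tau_inf P₁ P (Sum.inl p)
        have h1 : CE (lp (fun _ : ULift.{u} ℕ => XC (Cardinal.aleph.{u} 1).out) 1)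
            (lp (fun _ : ℕ => XC (Cardinal.aleph.{u} 1).out) 1) :=
          sW3.{u, 0, u, u} (ULift.{u} ℕ) ℕ (fun _ => XC (Cardinal.aleph.{u} 1).out)
            (fun _ => XC (Cardinal.aleph.{u} 1).out) ULift.down ULift.down_injective
            (fun _ => ce_refl)
        exact ce_trans h1 (ce_trans (ceN _) hY1)
      · exact w22
    exact ce_trans e1 (ce_trans (ce_iso e2.symm) e3)
  have d1 : CE (lp (fun k : P₁ ⊕ P => StrongDual ℝ (VY P₁ P Y C k)) 1)
      (lp (fun s : P₁ ⊕ (P × Q) => XC (τ s).out) 1) := by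
    set ty' : P₁ ⊕ P → Option Q → Cardinal.{u} :=
      Sum.elim (fun _ o => o.elim (Cardinal.aleph 1) (fun _ => Cardinal.aleph0))
        (fun _ _ => Cardinal.aleph0) with hty
    have e1 : CE (lp (fun k : P₁ ⊕ P => StrongDual ℝ (VY P₁ P Y C k)) 1)
        (lp (fun k : P₁ ⊕ P => lp (fun o : Option Q => XC (ty' k o).out) 1) 1) := by
      refine sW3.{u, u, u, u} (P₁ ⊕ P) (P₁ ⊕ P) (fun k => StrongDual ℝ (VY P₁ P Y C k))
        (fun k => lp (fun o : Option Q => XC (ty' k o).out) 1) id Function.injective_id ?_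
      rintro (p | p)
      · subst hQd
        exact hY2
      · have h1 : CE (lp (fun _ : Q => XC (Cardinal.aleph0.{u}).out) 1)
            (lp (fun _ : Option Q => XC (Cardinal.aleph0.{u}).out) 1) :=
          sW3.{u, u, u, u} Q (Option Q) (fun _ => XC (Cardinal.aleph0.{u}).out)
            (fun _ => XC (Cardinal.aleph0.{u}).out) some (Option.some_injective Q)
            (fun _ => ce_refl)
        exact ce_trans w21 h1
    have e2 : CE (lp (fun k : P₁ ⊕ P => lp (fun o : Option Q => XC (ty' k o).out) 1) 1)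
        (lp (fun q : (Σ _ : P₁ ⊕ P, Option Q) => XC (ty' q.1 q.2).out) 1) :=
      ce_iso (Iter.iso (P := P₁ ⊕ P) (B := fun _ => Option Q) (Y := fun k o => XC (ty' k o).out))
    have e3 : CE (lp (fun q : (Σ _ : P₁ ⊕ P, Option Q) => XC (ty' q.1 q.2).out) 1)
        (lp (fun s : P₁ ⊕ (P × Q) => XC (τ s).out) 1) := by
      obtain ⟨j⟩ : Nonempty ((P₁ × Q) ⊕ (P × Option Q) ↪ P × Q) := by
        rw [← Cardinal.le_def]
        have h1 : Cardinal.mk (P₁ × Q) ≤ Cardinal.mk (P × Q) := by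
          rw [Cardinal.mk_prod, Cardinal.mk_prod, Cardinal.lift_id, Cardinal.lift_id,
            Cardinal.lift_id]
          exact mul_le_mul_left hP₁le _
        have h2 : Cardinal.mk (P × Option Q) ≤ Cardinal.mk (P × Q) := by
          have h3 : Cardinal.mk (Option Q) = Cardinal.mk Q := by
            rw [Cardinal.mk_option]
            exact Cardinal.add_one_eq (by rw [hQc]; exact Cardinal.aleph0_le_continuum)
          rw [Cardinal.mk_prod, Cardinal.mk_prod, h3]
        rw [Cardinal.mk_sum, Cardinal.lift_id, Cardinal.lift_id]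
        refine (add_le_add h1 h2).trans (le_of_eq ?_)
        rw [hPQ]
        exact Cardinal.add_eq_self hPinf
      refine sW3.{u, u, u, u} (Σ _ : P₁ ⊕ P, Option Q) (P₁ ⊕ (P × Q))
        (fun q => XC (ty' q.1 q.2).out) (fun s => XC (τ s).out)
        (fun s => match s with
          | ⟨.inl p, none⟩ => .inl p
          | ⟨.inl p, some q⟩ => .inr (j (.inl (p, q)))
          | ⟨.inr p, o⟩ => .inr (j (.inr (p, o)))) ?_ ?_
      · rintro ⟨(p | p), (_ | q)⟩ ⟨(p' | p'), (_ | q')⟩ h <;>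
          simp_all
      · rintro ⟨(p | p), (_ | q)⟩
        · exact ce_refl
        · exact ce_refl
        · exact ce_refl
        · exact ce_refl
    exact ce_trans e1 (ce_trans e2 e3)
  -- Pelczynski decomposition
  have hl := l1W (P₁ ⊕ (P × Q)) τ hτinf
  have hl2 := cb_l1 (lp (fun s : P₁ ⊕ (P × Q) => XC (τ s).out) 1)
  have hst := stable (lp (fun s : P₁ ⊕ (P × Q) => XC (τ s).out) 1)
  obtain ⟨f1⟩ := sT2.{u, u} (lp (fun _ : ℕ => lp (fun s : P₁ ⊕ (P × Q) => XC (τ s).out) 1) 1)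
    (lp X 1) (cb_trans (cb hl) (cb c2)) (cb_trans (cb c1) hl2) hst
  obtain ⟨f2⟩ := sT2.{u, u} (lp (fun _ : ℕ => lp (fun s : P₁ ⊕ (P × Q) => XC (τ s).out) 1) 1)
    (lp (fun k : P₁ ⊕ P => StrongDual ℝ (VY P₁ P Y C k)) 1)
    (cb_trans (cb hl) (cb d2)) (cb_trans (cb d1) hl2) hst
  obtain ⟨Z, i1, i2, i3, ⟨f3⟩⟩ := sW5.{u, u} (P₁ ⊕ P) (VY P₁ P Y C)
  exact ⟨Z, i1, i2, i3, ⟨(f1.symm.trans f2).trans f3.symm⟩⟩

end Pool.Agent.H553.LD.WCH
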